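import Mathlib

set_option autoImplicit false

namespace H324Z.Aim

/-- In a commutative loop whose maps `L_{xy}^{-1} L_x L_y` commute pairwise, the stabiliser of the
identity in the multiplication group is abelian. -/
theorem inn_comm {T : Type} (mul : T → T → T) (e : T)
    (hcomm : ∀ x y, mul x y = mul y x) (hone : ∀ x, mul e x = x)
    (hdiv : ∀ a b, ∃! x, mul a x = b)
    (m : T → T → T → T) (hm : ∀ x y z, mul (mul x y) (m x y z) = mul x (mul y z))
    (hmm : ∀ x y u v z, m x y (m u v z) = m u v (m x y z)) :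
    ∀ σ ∈ Subgroup.closure
          {π : Equiv.Perm T | ∃ a, (∀ x, π x = mul a x) ∨ (∀ x, π x = mul x a)},
        ∀ τ ∈ Subgroup.closure
          {π : Equiv.Perm T | ∃ a, (∀ x, π x = mul a x) ∨ (∀ x, π x = mul x a)},
          σ e = e → τ e = e → σ * τ = τ * σ := by
  have hbij : ∀ a, Function.Bijective (mul a) := by
    intro a
    constructor
    · intro x y hxy
      exact (hdiv a (mul a y)).unique hxy rfl
    · intro b
      exact (hdiv a b).exists
  let L : T → Equiv.Perm T := fun a => Equiv.ofBijective (mul a) (hbij a)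
  have hL : ∀ a x, L a x = mul a x := fun a x => rfl
  let M : T → T → Equiv.Perm T := fun x y => (L (mul x y))⁻¹ * L x * L y
  have hM : ∀ x y z, M x y z = m x y z := by
    intro x y z
    simp only [M, Equiv.Perm.mul_apply, Equiv.Perm.coe_inv]
    rw [Equiv.symm_apply_eq]
    simp only [hL, hm]
  let H : Subgroup (Equiv.Perm T) := Subgroup.closure {π | ∃ x y, π = M x y}
  have hMH : ∀ x y, M x y ∈ H := fun x y => Subgroup.subset_closure ⟨x, y, rfl⟩
  have hgen : ∀ x y u v, Commute (M x y) (M u v) := by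
    intro x y u v
    ext z
    simp only [Equiv.Perm.mul_apply, hM, hmm x y u v z]
  have hH1 : ∀ x y, ∀ τ ∈ H, Commute (M x y) τ := by
    intro x y τ hτ
    induction hτ using Subgroup.closure_induction with
    | mem π hπ => obtain ⟨u, v, rfl⟩ := hπ; exact hgen x y u v
    | one => exact Commute.one_right _
    | mul a b _ _ ha hb => exact ha.mul_right hb
    | inv a _ ha => exact ha.inv_right
  have hH : ∀ σ ∈ H, ∀ τ ∈ H, Commute σ τ := by
    intro σ hσ τ hτ
    induction hσ using Subgroup.closure_induction with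
    | mem π hπ => obtain ⟨u, v, rfl⟩ := hπ; exact hH1 u v τ hτ
    | one => exact Commute.one_left _
    | mul a b _ _ ha hb => exact ha.mul_left hb
    | inv a _ ha => exact ha.inv_left
  have hHe : ∀ σ ∈ H, σ e = e := by
    intro σ hσ
    induction hσ using Subgroup.closure_induction with
    | mem π hπ =>
      obtain ⟨u, v, rfl⟩ := hπ
      simp only [M, Equiv.Perm.mul_apply, Equiv.Perm.coe_inv]
      rw [Equiv.symm_apply_eq]
      simp only [hL]
      rw [hcomm v e, hone, hcomm _ e, hone]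
    | one => rfl
    | mul a b _ _ ha hb => rw [Equiv.Perm.mul_apply, hb, ha]
    | inv a _ ha =>
      apply a.injective
      simp [ha]
  have hLe : L e = 1 := by
    ext z
    simp [hL, hone]
  have key : ∀ σ ∈ Subgroup.closure
      {π : Equiv.Perm T | ∃ a, (∀ x, π x = mul a x) ∨ (∀ x, π x = mul x a)},
      ∃ a, ∃ η ∈ H, σ = L a * η := by
    intro σ hσ
    have hs : ∀ π ∈ {π : Equiv.Perm T | ∃ a, (∀ x, π x = mul a x) ∨ (∀ x, π x = mul x a)},
        ∃ a, π = L a := by
      rintro π ⟨a, h | h⟩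
      · exact ⟨a, Equiv.ext fun z => by rw [h, hL]⟩
      · exact ⟨a, Equiv.ext fun z => by rw [h, hL, hcomm]⟩
    induction hσ using Subgroup.closure_induction_left with
    | one => exact ⟨e, 1, H.one_mem, by rw [hLe, one_mul]⟩
    | mul_left π hπ σ _ ih =>
      obtain ⟨b, rfl⟩ := hs π hπ
      obtain ⟨a, η, hη, rfl⟩ := ih
      refine ⟨mul b a, M b a * η, H.mul_mem (hMH _ _) hη, ?_⟩
      simp only [M]
      group
    | inv_mul_cancel π hπ σ _ ih =>
      obtain ⟨b, rfl⟩ := hs π hπ
      obtain ⟨a, η, hη, rfl⟩ := ih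
      obtain ⟨c, hc, -⟩ := hdiv b a
      refine ⟨c, (M b c)⁻¹ * η, H.mul_mem (H.inv_mem (hMH _ _)) hη, ?_⟩
      simp only [M, hc]
      group
  have key2 : ∀ σ ∈ Subgroup.closure
      {π : Equiv.Perm T | ∃ a, (∀ x, π x = mul a x) ∨ (∀ x, π x = mul x a)},
      σ e = e → σ ∈ H := by
    intro σ hσ he
    obtain ⟨a, η, hη, rfl⟩ := key σ hσ
    rw [Equiv.Perm.mul_apply, hHe η hη, hL, hcomm, hone] at he
    rw [he, hLe, one_mul]
    exact hη
  intro σ hσ τ hτ h1 h2
  exact (hH σ (key2 σ hσ h1) τ (key2 τ hτ h2)).eq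

end H324Z.Aim
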