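import Mathlib

set_option autoImplicit false

namespace H324Z.Aim

abbrev K := ZMod 3
abbrev A := Fin 5 → K
abbrev B := Fin 5 → Fin 5 → Fin 5 → K
abbrev Q := A × B × K

/-- the symmetric cocycle of the commutative Moufang loop of exponent three -/
def th (x y : A) : B := fun i j k => (x k - y k) * (x i * y j - x j * y i)

/-- the three by three minors -/
def dt (x y z : A) : B := fun i j k =>
  x k * (y i * z j - y j * z i) + z k * (x i * y j - x j * y i) - y k * (x i * z j - x j * z i)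

/-- the wedge product of two vectors and a three-form -/
def ka (x y : A) (b : B) : K :=
  (x 0 * y 1 - x 1 * y 0) * b 2 3 4 - (x 0 * y 2 - x 2 * y 0) * b 1 3 4
  + (x 0 * y 3 - x 3 * y 0) * b 1 2 4 - (x 0 * y 4 - x 4 * y 0) * b 1 2 3
  + (x 1 * y 2 - x 2 * y 1) * b 0 3 4 - (x 1 * y 3 - x 3 * y 1) * b 0 2 4
  + (x 1 * y 4 - x 4 * y 1) * b 0 2 3 + (x 2 * y 3 - x 3 * y 2) * b 0 1 4
  - (x 2 * y 4 - x 4 * y 2) * b 0 1 3 + (x 3 * y 4 - x 4 * y 3) * b 0 1 2

def mul (X Y : Q) : Q :=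
  (X.1 + Y.1, X.2.1 + Y.2.1 + th X.1 Y.1, X.2.2 + Y.2.2 + ka X.1 Y.1 (X.2.1 - Y.2.1))

def hh (X Y : Q) (z : A) : K :=
  ka Y.1 z Y.2.1 + ka X.1 (Y.1 + z) (X.2.1 - Y.2.1 - th Y.1 z) - ka X.1 Y.1 (X.2.1 - Y.2.1)
    - ka (X.1 + Y.1) z (X.2.1 + Y.2.1 + th X.1 Y.1 + dt X.1 Y.1 z)

def inn (X Y Z : Q) : Q :=
  (Z.1, Z.2.1 - dt X.1 Y.1 Z.1, Z.2.2 - ka X.1 Y.1 Z.2.1 + hh X Y Z.1)

theorem three : (3 : K) = 0 := by decide

theorem th_comm (x y : A) : th x y = th y x := by
  funext i j k; simp only [th]; ring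

theorem th_assoc (x y z : A) :
    th x y - dt x y z + th (x + y) z = th y z + th x (y + z) := by
  funext i j k
  simp only [th, dt, Pi.add_apply, Pi.sub_apply]
  linear_combination (y k * (x i * z j - x j * z i)) * three

theorem ka_key (x y u v z : A) : ka x y (dt u v z) = ka u v (dt x y z) := by
  simp only [ka, dt]; ring

theorem mul_comm' (X Y : Q) : mul X Y = mul Y X := by
  simp only [mul]
  refine Prod.ext (add_comm _ _) (Prod.ext ?_ ?_)
  · simp only [th_comm X.1 Y.1, add_comm X.2.1]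
  · simp only [ka, Pi.sub_apply]; ring

theorem one_mul' (X : Q) : mul 0 X = X := by
  simp only [mul]
  refine Prod.ext (by simp) (Prod.ext ?_ ?_)
  · funext i j k; simp [th]
  · simp [ka]

theorem div' (X W : Q) : ∃! Z, mul X Z = W := by
  obtain ⟨x, bx, cx⟩ := X
  obtain ⟨w, bw, cw⟩ := W
  refine ⟨(w - x, bw - bx - th x (w - x), cw - cx - ka x (w - x) (bx - (bw - bx - th x (w - x)))),
    ?_, ?_⟩
  · simp only [mul]
    refine Prod.ext (by simp) (Prod.ext ?_ ?_)
    · simp only; abel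
    · simp only; ring
  · rintro ⟨z, bz, cz⟩ h
    simp only [mul, Prod.mk.injEq] at h
    obtain ⟨h1, h2, h3⟩ := h
    have e1 : z = w - x := by rw [← h1]; simp
    have e2 : bz = bw - bx - th x (w - x) := by rw [← h2, ← e1]; abel
    have e3 : cz = cw - cx - ka x (w - x) (bx - (bw - bx - th x (w - x))) := by
      rw [← h3, ← e2, ← e1]; ring
    rw [← e3, ← e2, ← e1]

theorem inn_spec (X Y Z : Q) : mul (mul X Y) (inn X Y Z) = mul X (mul Y Z) := by
  obtain ⟨x, bx, cx⟩ := X
  obtain ⟨y, bY, cy⟩ := Y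
  obtain ⟨z, b, c⟩ := Z
  simp only [mul, inn, hh]
  refine Prod.ext (add_assoc _ _ _) (Prod.ext ?_ ?_)
  · have := th_assoc x y z
    simp only
    linear_combination this
  · generalize th x y = t1
    generalize th y z = t2
    generalize dt x y z = t3
    simp only [ka, Pi.add_apply, Pi.sub_apply]
    ring

theorem ka_sub (x y : A) (b b' : B) : ka x y (b - b') = ka x y b - ka x y b' := by
  simp only [ka, Pi.sub_apply]; ring

theorem inn_inn (X Y U V Z : Q) : inn X Y (inn U V Z) = inn U V (inn X Y Z) := by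
  simp only [inn]
  refine Prod.ext rfl (Prod.ext ?_ ?_)
  · simp only; abel
  · simp only [ka_sub, ka_key X.1 Y.1 U.1 V.1]; ring

def ev (i : Fin 5) : Q := (Pi.single i 1, 0, 0)

theorem not_central (C : Q)
    (h1 : mul (mul (ev 3) (ev 4)) C = mul (ev 3) (mul (ev 4) C))
    (h2 : mul (mul (ev 0) (ev 1)) (ev 2) = mul (mul (ev 0) (mul (ev 1) (ev 2))) C) : False := by
  obtain ⟨z, b, c⟩ := C
  have hz : z = 0 := by
    have := congrArg Prod.fst h2
    simp only [mul, ev] at this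
    rw [← add_assoc] at this
    exact (add_eq_left.mp this.symm)
  subst hz
  have a1 := congrArg (fun X : Q => X.2.2) h1
  have a2 := congrArg (fun X : Q => X.2.1 0 1 2) h2
  simp [mul, ev, ka, th] at a1 a2
  rw [a1] at a2
  revert a2
  decide

theorem card_odd : Odd (Fintype.card Q) := by
  simp only [Fintype.card_prod, Fintype.card_fun, ZMod.card, Fintype.card_fin]
  refine Odd.mul (Odd.pow (by decide)) (Odd.mul ?_ (by decide))
  exact Odd.pow (Odd.pow (Odd.pow (by decide)))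

end H324Z.Aim
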